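import Pool.Agent.helper69.SN.SpecB
import Pool.Agent.helper53.SC.HS1

/-!
Row bLGL of the project MP_d2d7b9_gt (sn): local gluing in the class.
-/

open scoped Pointwise ContDiff
open MeasureTheory Set Filter Topology

namespace Pool.Agent.helper69.SN

open Pool.Agent.helper83.SC

theorem LGL_hess_congr {m : ℕ} {f g : E m → ℝ} {x : E m} (h : f =ᶠ[𝓝 x] g) :
    hess f x = hess g x := by
  ext i j
  simp only [hess, Matrix.of_apply]
  have h1 : pd j f =ᶠ[𝓝 x] pd j g := by
    filter_upwards [h.eventuallyEq_nhds] with y hy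
    simp only [pd]
    rw [hy.fderiv_eq]
  simp only [pd] at h1 ⊢
  rw [h1.fderiv_eq]

theorem bLGL_of (hCVX : bCVX_stmt) (hRMX : bRMX_stmt) (hCLS : bCLS_stmt) (hCLO : aCLO_stmt) :
    bLGL_stmt := by
  classical
  intro m n B hB O u v hO hOb hu hv hvin hfr f hf1 hf2 R ε hε
  obtain ⟨hucv, hucont⟩ := (hCLS B hB).2.1 u hu
  -- the gap on the frontier
  obtain ⟨c, hc0, hc⟩ : ∃ c : ℝ, 0 < c ∧ ∀ x ∈ frontier O, v x + 3 * c ≤ u x := by
    have hcomp : IsCompact (frontier O) := by
      refine Metric.isCompact_of_isClosed_isBounded isClosed_frontier ?_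
      exact (hOb.closure).subset frontier_subset_closure
    rcases (frontier O).eq_empty_or_nonempty with he | hne
    · exact ⟨1, one_pos, fun x hx => by rw [he] at hx; exact absurd hx (notMem_empty x)⟩
    · obtain ⟨x₀, hx₀, hmin⟩ := hcomp.exists_isMinOn hne
        ((hucont.sub hv.1.continuous).continuousOn (s := frontier O))
      refine ⟨(u x₀ - v x₀) / 3, by linarith [hfr x₀ hx₀], fun x hx => ?_⟩
      have h1 : u x₀ - v x₀ ≤ u x - v x := hmin hx
      linarith
  obtain ⟨R₀, hR₀⟩ := (hOb.closure).exists_norm_le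
  set R' : ℝ := max R R₀ with hR'
  set s : ℝ := min (ε / 2) c with hs
  have hs0 : 0 < s := lt_min (by linarith) hc0
  have hse : s ≤ ε / 2 := min_le_left _ _
  have hsc : s ≤ c := min_le_right _ _
  obtain ⟨u', hu'1, hu'2, hu'3⟩ := hu R' s hs0
  obtain ⟨w, hw1, hw2, hw3, hw4, hw5, hw6⟩ := hRMX s hs0 u' v hu'1.1 hv.1
  set k : E m → ℝ := fun x => if x ∈ O then w x else u' x with hk
  -- near a point off `O` the function is `u'`
  have hoff : ∀ x, x ∉ O → k =ᶠ[𝓝 x] u' := by
    intro x hx
    by_cases hxc : x ∈ closure O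
    · have hxf : x ∈ frontier O := by
        rw [frontier, hO.interior_eq]
        exact ⟨hxc, hx⟩
      have h1 := hc x hxf
      have h2 := (abs_le.mp (hu'2 x ((hR₀ x hxc).trans (le_max_right _ _)))).1
      have h3 : v x + s < u' x := by linarith
      have h4 : ∀ᶠ y in 𝓝 x, v y + s < u' y :=
        (hv.1.continuous.add continuous_const).continuousAt.eventually_lt
          hu'1.1.continuous.continuousAt h3
      filter_upwards [h4] with y hy
      simp only [hk]
      split_ifs with hyO
      · exact hw3 y hy.le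
      · rfl
    · have h4 : (closure O)ᶜ ∈ 𝓝 x := isClosed_closure.isOpen_compl.mem_nhds hxc
      filter_upwards [h4] with y hy
      have hyO : y ∉ O := fun h => hy (subset_closure h)
      simp only [hk, if_neg hyO]
  have hon : ∀ x ∈ O, k =ᶠ[𝓝 x] w := by
    intro x hx
    filter_upwards [hO.mem_nhds hx] with y hy
    simp only [hk, if_pos hy]
  have hks : ContDiff ℝ ∞ k := by
    rw [contDiff_iff_contDiffAt]
    intro x
    by_cases hx : x ∈ O
    · exact hw1.contDiffAt.congr_of_eventuallyEq (hon x hx)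
    · exact hu'1.1.contDiffAt.congr_of_eventuallyEq (hoff x hx)
  have hwcv : CV w := hw5 hu'1.2 hv.2
  have hkcv : CV k := by
    refine (hCVX hks).2 fun x => ?_
    by_cases hx : x ∈ O
    · rw [LGL_hess_congr (hon x hx)]
      exact hess_psd_of hw1 hwcv x
    · rw [LGL_hess_congr (hoff x hx)]
      exact hess_psd_of hu'1.1 hu'1.2 x
  refine ⟨k, ⟨hks, hkcv⟩, fun x hxR => ?_, fun x hxR => ?_⟩
  · have hxR' : ‖x‖ ≤ R' := hxR.trans (le_max_left _ _)
    have h1 := abs_le.mp (hu'2 x hxR')
    by_cases hx : x ∈ O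
    · rw [hf1 x hx]
      simp only [hk, if_pos hx]
      obtain ⟨h2, h3⟩ := hw2 x
      have h4 : max (u' x) (v x) ≤ max (u x) (v x) + s :=
        max_le (by linarith [le_max_left (u x) (v x), h1.2])
          (by linarith [le_max_right (u x) (v x)])
      have h5 : max (u x) (v x) ≤ max (u' x) (v x) + s :=
        max_le (by linarith [le_max_left (u' x) (v x), h1.1])
          (by linarith [le_max_right (u' x) (v x)])
      rw [abs_le]
      constructor <;> linarith
    · rw [hf2 x hx]
      simp only [hk, if_neg hx]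
      rw [abs_le]
      constructor <;> linarith [h1.1, h1.2]
  · have hxR' : ‖x‖ ≤ R' := hxR.trans (le_max_left _ _)
    obtain ⟨hconv, hadd, -⟩ := hCLO (B x) (hB x)
    by_cases hx : x ∈ O
    · rw [LGL_hess_congr (hon x hx)]
      obtain ⟨θ, P, hθ0, hθ1, hP, hH, -, -⟩ := hw6 x
      have h1 : θ • (hess u' x - ∑ i, B x i) + (1 - θ) • (hess v x - ∑ i, B x i) ∈ GG (B x) :=
        hconv (hu'3 x hxR') (hvin x (subset_closure hx)) hθ0 (by linarith) (by ring)
      have h2 := hadd _ _ h1 hP
      have h3 : hess w x - ∑ i, B x i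
          = θ • (hess u' x - ∑ i, B x i) + (1 - θ) • (hess v x - ∑ i, B x i) + P := by
        rw [hH]
        module
      rw [h3]
      exact h2
    · rw [LGL_hess_congr (hoff x hx)]
      exact hu'3 x hxR'

end Pool.Agent.helper69.SN
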