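import Pool.Agent.helper69.SN.SpecB
import Pool.Agent.helper53.SC.HS2

/-!
Row bMXP of the project MP_d2d7b9_gt (sn): the maximum principle for `κ - b`.
-/

open scoped Pointwise ContDiff
open MeasureTheory Set Filter Topology

namespace Pool.Agent.helper69.SN

open Pool.Agent.helper83.SC

theorem MXP_hess {m : ℕ} {u b : E m → ℝ} (hu : ContDiff ℝ ∞ u) (hb : ContDiff ℝ ∞ b) (ε : ℝ)
    (x : E m) :
    ContDiff ℝ ∞ (fun y => (u y + (-1) * b y) + (2 * ε) * ‖y‖ ^ 2 / 2) ∧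
    hess (fun y => (u y + (-1) * b y) + (2 * ε) * ‖y‖ ^ 2 / 2) x
      = hess u x - hess b x + (2 * ε) • (1 : Mat m) := by
  have hn : ContDiff ℝ ∞ (fun y : E m => (2 * ε) * ‖y‖ ^ 2 / 2) :=
    (contDiff_const.mul (contDiff_norm_sq ℝ)).div_const 2
  have hb' : ContDiff ℝ ∞ (fun y => (-1 : ℝ) * b y) := contDiff_const.mul hb
  have h1 : ContDiff ℝ ∞ (fun y => u y + (-1) * b y) := hu.add hb'
  refine ⟨h1.add hn, ?_⟩
  have e1 := hess_add_of h1 hn x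
  have e2 := hess_add_of hu hb' x
  have e3 := hess_smul_of hb (-1) x
  have e4 := hess_normSq_of (m := m) (2 * ε) x
  rw [e1, e2, e3, e4, neg_one_smul, sub_eq_add_neg]

theorem bMXP_of (hCLO : aCLO_stmt) (hSCD : bSCD_stmt) : bMXP_stmt := by
  intro m n B hB U κ b L hU hκ hb hcone hout x₀
  by_contra hcon
  rw [not_le] at hcon
  have hx₀U : x₀ ∈ U := by
    by_contra h
    exact absurd (hout x₀ h) (not_le.mpr hcon)
  obtain ⟨R₀, hR₀⟩ := hU.exists_norm_le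
  set R : ℝ := |R₀| with hR
  have hR0 : 0 ≤ R := abs_nonneg _
  have hUR : ∀ x ∈ U, ‖x‖ ≤ R := fun x hx => (hR₀ x hx).trans (le_abs_self _)
  set δ : ℝ := (κ x₀ - b x₀ - L) / 3 with hδ
  have hδ0 : 0 < δ := by
    rw [hδ]; linarith
  set ε : ℝ := δ / (R + 1) ^ 2 with hε
  have hR1 : (0 : ℝ) < (R + 1) ^ 2 := by positivity
  have hε0 : 0 < ε := div_pos hδ0 hR1
  have hεR : ε * (R + 1) ^ 2 = δ := by
    rw [hε]; exact div_mul_cancel₀ δ hR1.ne'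
  obtain ⟨κ', ⟨hκ'1, hκ'2⟩, hcl, hin⟩ := hκ (R + 1) (δ / 2) (by linarith)
  set g : E m → ℝ := fun y => (κ' y + (-1) * b y) + (2 * ε) * ‖y‖ ^ 2 / 2 with hg
  have hgs : ContDiff ℝ ∞ g := (MXP_hess hκ'1 hb ε x₀).1
  have hcomp : IsCompact (Metric.closedBall (0 : E m) (R + 1)) := isCompact_closedBall _ _
  have hx₀B : x₀ ∈ Metric.closedBall (0 : E m) (R + 1) := by
    rw [mem_closedBall_zero_iff]
    linarith [hUR x₀ hx₀U]
  obtain ⟨x₁, hx₁B, hmax⟩ := hcomp.exists_isMaxOn ⟨x₀, hx₀B⟩ hgs.continuous.continuousOn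
  have hx₁n : ‖x₁‖ ≤ R + 1 := by rwa [mem_closedBall_zero_iff] at hx₁B
  have hx₀n : ‖x₀‖ ≤ R + 1 := by rwa [mem_closedBall_zero_iff] at hx₀B
  have hg01 : g x₀ ≤ g x₁ := hmax hx₀B
  have hg0 : L + 5 / 2 * δ ≤ g x₀ := by
    have h1 := (abs_le.mp (hcl x₀ hx₀n)).1
    have h2 : 0 ≤ ε * ‖x₀‖ ^ 2 := by positivity
    have h3 : κ x₀ - b x₀ = L + 3 * δ := by rw [hδ]; ring
    simp only [hg]
    linarith
  have hx₁U : x₁ ∈ U := by
    by_contra h
    have h1 := hout x₁ h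
    have h2 := (abs_le.mp (hcl x₁ hx₁n)).2
    have h3 : ε * ‖x₁‖ ^ 2 ≤ δ := by
      rw [← hεR]
      exact mul_le_mul_of_nonneg_left (pow_le_pow_left₀ (norm_nonneg _) hx₁n 2) hε0.le
    have h4 : g x₁ ≤ L + 3 / 2 * δ := by
      simp only [hg]
      linarith
    linarith
  have hloc : IsLocalMax g x₁ := by
    refine hmax.isLocalMax ?_
    refine mem_nhds_iff.mpr ⟨Metric.ball 0 (R + 1), Metric.ball_subset_closedBall,
      Metric.isOpen_ball, ?_⟩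
    rw [mem_ball_zero_iff]
    linarith [hUR x₁ hx₁U]
  have hneg := hSCD hgs hloc
  have hH := (MXP_hess hκ'1 hb ε x₁).2
  have hH' : hess g x₁ = hess κ' x₁ - hess b x₁ + (2 * ε) • (1 : Mat m) := hH
  refine hcone x₁ hx₁U (hess κ' x₁ + -(hess g x₁)) ?_ (2 * ε) (by linarith) ?_
  · have h1 := (hCLO (B x₁) (hB x₁)).2.1 _ _ (hin x₁ hx₁n) hneg
    have h2 : hess κ' x₁ + -(hess g x₁) - ∑ i, B x₁ i
        = hess κ' x₁ - ∑ i, B x₁ i + -(hess g x₁) := by abel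
    rw [h2]
    exact h1
  · rw [hH']
    abel

end Pool.Agent.helper69.SN
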